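import Mathlib

set_option autoImplicit false

namespace Q192.UKD

open Finset

variable {V : Type*} [Fintype V]

open Classical in
/-- The sum of `g` over the closed neighbourhood of `v`. -/
noncomputable def closedSum (G : SimpleGraph V) (g : V → ℕ) (v : V) : ℕ :=
  ∑ u ∈ univ.filter (fun u => u = v ∨ G.Adj v u), g u

/-- `g : V → {0, …, k}` is a minimal `k`-dominating function: every closed neighbourhood has
`g`-sum at least `k`, and every vertex `v` with `g v > 0` has in its closed neighbourhood a vertex
`u` whose closed neighbourhood has `g`-sum exactly `k`. -/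
structure IsMinimalKDominating (G : SimpleGraph V) (k : ℕ) (g : V → ℕ) : Prop where
  le_k : ∀ v, g v ≤ k
  dominating : ∀ v, k ≤ closedSum G g v
  minimal : ∀ v, 0 < g v → ∃ u, (u = v ∨ G.Adj v u) ∧ closedSum G g u = k

/-- The upper `k`-domination number: the maximum weight of a minimal `k`-dominating function. -/
noncomputable def upperKDomination (G : SimpleGraph V) (k : ℕ) : ℕ :=
  sSup {w | ∃ g : V → ℕ, IsMinimalKDominating G k g ∧ w = ∑ v, g v}

theorem bddAbove_weights (G : SimpleGraph V) (k : ℕ) :
    BddAbove {w | ∃ g : V → ℕ, IsMinimalKDominating G k g ∧ w = ∑ v, g v} := by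
  refine ⟨∑ _v : V, k, ?_⟩
  rintro w ⟨g, hg, rfl⟩
  exact Finset.sum_le_sum fun v _ => hg.le_k v

end Q192.UKD
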