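import Pool.Agent.Q192.UKD.Defs

set_option autoImplicit false

namespace Q192.UKD

open Finset

abbrev Idx (n : ℕ) := Fin n × Fin n × Fin n × Fin n
abbrev Tri (n : ℕ) := {τ : Finset (Fin n) // τ.card = 3}
abbrev KK (n : ℕ) := Unit ⊕ (Bool × Fin n) ⊕ Idx n
abbrev QQ (n : ℕ) := Idx n ⊕ ((Bool × Fin n) × (Bool × Tri n))
abbrev VV (n : ℕ) := KK n ⊕ QQ n

variable {n : ℕ}

/-- block coordinates of an index -/
def beta (y : Idx n) (s : Bool) : Fin n := if s then y.2.2.2 else y.2.2.1
/-- core coordinates of an index -/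
def ends (y : Idx n) (t : Bool) : Fin n := if t then y.2.1 else y.1

def inc : KK n → QQ n → Prop
  | Sum.inl _, _ => False
  | Sum.inr (Sum.inl p), Sum.inl y => p.2 = ends y p.1
  | Sum.inr (Sum.inl p), Sum.inr q => p.1 = q.2.1 ∧ p.2 ∈ q.2.2.1
  | Sum.inr (Sum.inr z), Sum.inl y => z = y
  | Sum.inr (Sum.inr _), Sum.inr _ => False

def nearQ : QQ n → QQ n → Prop
  | Sum.inl _, Sum.inl _ => True
  | Sum.inl y, Sum.inr q => beta y q.1.1 = q.1.2
  | Sum.inr q, Sum.inl y => beta y q.1.1 = q.1.2
  | Sum.inr q, Sum.inr q' => q.1 = q'.1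

def near : VV n → VV n → Prop
  | Sum.inl _, Sum.inl _ => True
  | Sum.inl k, Sum.inr q => inc k q
  | Sum.inr q, Sum.inl k => inc k q
  | Sum.inr q, Sum.inr q' => nearQ q q'

theorem nearQ_symm {q q' : QQ n} (h : nearQ q q') : nearQ q' q := by
  rcases q with y | q <;> rcases q' with y' | q' <;> simp_all [nearQ]

theorem near_symm {v w : VV n} (h : near v w) : near w v := by
  rcases v with k | q <;> rcases w with k' | q'
  · trivial
  · exact h
  · exact h
  · exact nearQ_symm h

theorem near_refl (v : VV n) : near v v := by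
  rcases v with k | q
  · trivial
  · rcases q with y | q
    · trivial
    · rfl

def GG (n : ℕ) : SimpleGraph (VV n) where
  Adj v w := v ≠ w ∧ near v w
  symm := ⟨fun _ _ h => ⟨h.1.symm, near_symm h.2⟩⟩
  loopless := ⟨fun _ h => h.1 rfl⟩

theorem closed_iff (v u : VV n) : (u = v ∨ (GG n).Adj v u) ↔ near v u := by
  constructor
  · rintro (rfl | h)
    · exact near_refl _
    · exact h.2
  · intro h
    by_cases e : u = v
    · exact Or.inl e
    · exact Or.inr ⟨fun h' => e h'.symm, h⟩

open Classical in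
theorem closedSum_eq (g : VV n → ℕ) (v : VV n) :
    closedSum (GG n) g v = ∑ u, if near v u then g u else 0 := by
  unfold closedSum
  rw [Finset.sum_filter]
  refine Finset.sum_congr rfl fun u _ => ?_
  simp only [closed_iff]

/-- total weight on the big clique -/
def wK (g : VV n → ℕ) : ℕ := ∑ k : KK n, g (Sum.inl k)
def wY (g : VV n → ℕ) : ℕ := ∑ y : Idx n, g (Sum.inr (Sum.inl y))
def wB (g : VV n → ℕ) (p : Bool × Fin n) : ℕ := ∑ q : Bool × Tri n, g (Sum.inr (Sum.inr (p, q)))
def wS (g : VV n → ℕ) (p : Bool × Fin n) : ℕ :=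
  ∑ y : Idx n, if beta y p.1 = p.2 then g (Sum.inr (Sum.inl y)) else 0
def cc (g : VV n → ℕ) (t : Bool) (x : Fin n) : ℕ := g (Sum.inl (Sum.inr (Sum.inl (t, x))))
def ll (g : VV n → ℕ) (z : Idx n) : ℕ := g (Sum.inl (Sum.inr (Sum.inr z)))

open Classical in
theorem closedSum_K (g : VV n → ℕ) (k : KK n) :
    closedSum (GG n) g (Sum.inl k) = wK g + ∑ q : QQ n, if inc k q then g (Sum.inr q) else 0 := by
  rw [closedSum_eq, Fintype.sum_sum_type]
  congr 1
  · simp [near, wK]

theorem closedSum_r (g : VV n → ℕ) :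
    closedSum (GG n) g (Sum.inl (Sum.inl ())) = wK g := by
  classical
  rw [closedSum_K]
  simp [inc]

theorem closedSum_Y (g : VV n → ℕ) (y : Idx n) :
    closedSum (GG n) g (Sum.inr (Sum.inl y)) =
      (cc g false (ends y false) + cc g true (ends y true) + ll g y) +
      (wY g + (wB g (false, beta y false) + wB g (true, beta y true))) := by
  classical
  rw [closedSum_eq, Fintype.sum_sum_type]
  congr 1
  · rw [Fintype.sum_sum_type, Fintype.sum_sum_type]
    have h1 : ∀ u : Unit, (if near (Sum.inr (Sum.inl y) : VV n) (Sum.inl (Sum.inl u)) then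
        g (Sum.inl (Sum.inl u)) else 0) = 0 := fun u => if_neg (fun h => h)
    have h2 : ∀ u : Bool × Fin n, (if near (Sum.inr (Sum.inl y) : VV n)
        (Sum.inl (Sum.inr (Sum.inl u))) then g (Sum.inl (Sum.inr (Sum.inl u))) else 0) =
        if u.2 = ends y u.1 then cc g u.1 u.2 else 0 := fun u => if_congr Iff.rfl rfl rfl
    have h3 : ∀ u : Idx n, (if near (Sum.inr (Sum.inl y) : VV n)
        (Sum.inl (Sum.inr (Sum.inr u))) then g (Sum.inl (Sum.inr (Sum.inr u))) else 0) =
        if u = y then ll g u else 0 := fun u => if_congr Iff.rfl rfl rfl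
    rw [Finset.sum_congr rfl fun u _ => h1 u, Finset.sum_congr rfl fun u _ => h2 u,
      Finset.sum_congr rfl fun u _ => h3 u, Fintype.sum_prod_type, Fintype.sum_bool]
    simp only [Finset.sum_const_zero, Finset.sum_ite_eq', Finset.mem_univ, if_true]
    omega
  · rw [Fintype.sum_sum_type]
    congr 1
    · exact Finset.sum_congr rfl fun u _ => if_pos trivial
    · rw [Fintype.sum_prod_type]
      have h : ∀ p : Bool × Fin n, (∑ q : Bool × Tri n,
          if near (Sum.inr (Sum.inl y) : VV n) (Sum.inr (Sum.inr (p, q))) then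
            g (Sum.inr (Sum.inr (p, q))) else 0) =
          if p.2 = beta y p.1 then wB g p else 0 := by
        intro p
        split_ifs with h
        · exact Finset.sum_congr rfl fun u _ => if_pos h.symm
        · exact Finset.sum_eq_zero fun u _ => if_neg (fun h' => h h'.symm)
      rw [Finset.sum_congr rfl fun u _ => h u, Fintype.sum_prod_type, Fintype.sum_bool]
      simp only [Finset.sum_ite_eq', Finset.mem_univ, if_true]
      omega

theorem closedSum_U (g : VV n → ℕ) (p : Bool × Fin n) (q : Bool × Tri n) :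
    closedSum (GG n) g (Sum.inr (Sum.inr (p, q))) =
      (∑ x ∈ q.2.1, cc g q.1 x) + (wS g p + wB g p) := by
  classical
  rw [closedSum_eq, Fintype.sum_sum_type]
  congr 1
  · rw [Fintype.sum_sum_type, Fintype.sum_sum_type]
    have h1 : ∀ u : Unit, (if near (Sum.inr (Sum.inr (p, q)) : VV n) (Sum.inl (Sum.inl u)) then
        g (Sum.inl (Sum.inl u)) else 0) = 0 := fun u => if_neg (fun h => h)
    have h2 : ∀ u : Bool × Fin n, (if near (Sum.inr (Sum.inr (p, q)) : VV n)
        (Sum.inl (Sum.inr (Sum.inl u))) then g (Sum.inl (Sum.inr (Sum.inl u))) else 0) =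
        if u.1 = q.1 ∧ u.2 ∈ q.2.1 then cc g u.1 u.2 else 0 := fun u => if_congr Iff.rfl rfl rfl
    have h3 : ∀ u : Idx n, (if near (Sum.inr (Sum.inr (p, q)) : VV n)
        (Sum.inl (Sum.inr (Sum.inr u))) then g (Sum.inl (Sum.inr (Sum.inr u))) else 0) =
        0 := fun u => if_neg (fun h => h)
    rw [Finset.sum_congr rfl fun u _ => h1 u, Finset.sum_congr rfl fun u _ => h2 u,
      Finset.sum_congr rfl fun u _ => h3 u, Fintype.sum_prod_type, Fintype.sum_bool]
    rcases q with ⟨t, τ⟩
    cases t <;> simp [Finset.sum_ite_mem]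
  · rw [Fintype.sum_sum_type]
    congr 1
    · exact Finset.sum_congr rfl fun u _ => if_congr Iff.rfl rfl rfl
    · rw [Fintype.sum_prod_type]
      have h : ∀ p' : Bool × Fin n, (∑ q' : Bool × Tri n,
          if near (Sum.inr (Sum.inr (p, q)) : VV n) (Sum.inr (Sum.inr (p', q'))) then
            g (Sum.inr (Sum.inr (p', q'))) else 0) =
          if p = p' then wB g p' else 0 := by
        intro p'
        split_ifs with h
        · exact Finset.sum_congr rfl fun u _ => if_pos h
        · exact Finset.sum_eq_zero fun u _ => if_neg (fun h' => h h')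
      rw [Finset.sum_congr rfl fun u _ => h u]
      simp only [Finset.sum_ite_eq, Finset.mem_univ, if_true]

theorem total (g : VV n → ℕ) : ∑ v, g v = wK g + (wY g + ∑ p, wB g p) := by
  rw [Fintype.sum_sum_type]
  congr 1
  rw [Fintype.sum_sum_type]
  congr 1
  rw [Fintype.sum_prod_type]
  rfl

theorem wK_eq (g : VV n → ℕ) : wK g = g (Sum.inl (Sum.inl ())) +
    ((∑ t, ∑ x, cc g t x) + ∑ z, ll g z) := by
  unfold wK
  rw [Fintype.sum_sum_type, Fintype.sum_sum_type, Fintype.sum_prod_type]
  simp [cc, ll]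

end Q192.UKD
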