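import Pool.Agent.Q192.UKD.Upper

set_option autoImplicit false

namespace Q192.UKD

open Finset

variable {n : ℕ}

/-- the function of large weight: one on the core and the leaves -/
def g3 (n : ℕ) : VV n → ℕ
  | Sum.inl (Sum.inl _) => 0
  | Sum.inl (Sum.inr _) => 1
  | Sum.inr _ => 0

theorem wK_g3 : wK (g3 n) = 2 * n + n ^ 4 := by
  rw [wK_eq]
  have h1 : ∀ t x, cc (g3 n) t x = 1 := fun _ _ => rfl
  have h2 : ∀ z, ll (g3 n) z = 1 := fun _ => rfl
  simp only [h1, h2, Finset.sum_const, Finset.card_univ, Fintype.card_bool, Fintype.card_fin,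
    Fintype.card_prod, smul_eq_mul, mul_one]
  simp only [g3]
  ring

theorem wY_g3 : wY (g3 n) = 0 := Finset.sum_eq_zero fun _ _ => rfl
theorem wB_g3 (p : Bool × Fin n) : wB (g3 n) p = 0 := Finset.sum_eq_zero fun _ _ => rfl
theorem wS_g3 (p : Bool × Fin n) : wS (g3 n) p = 0 :=
  Finset.sum_eq_zero fun _ _ => ite_self _

theorem cs_Y (y : Idx n) : closedSum (GG n) (g3 n) (Sum.inr (Sum.inl y)) = 3 := by
  rw [closedSum_Y, wY_g3, wB_g3, wB_g3]
  rfl

theorem g3_minimal (hn : 2 ≤ n) : IsMinimalKDominating (GG n) 3 (g3 n) := by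
  classical
  refine ⟨?_, ?_, ?_⟩
  · rintro ((_ | _) | _) <;> simp [g3]
  · rintro (k | (y | ⟨p, q⟩))
    · rw [closedSum_K, wK_g3]
      have : 0 ≤ n ^ 4 := Nat.zero_le _
      have h2 : 2 ^ 4 ≤ n ^ 4 := Nat.pow_le_pow_left hn 4
      omega
    · rw [cs_Y]
    · rw [closedSum_U, wS_g3, wB_g3]
      have h1 : ∑ x ∈ q.2.1, cc (g3 n) q.1 x = 3 := by
        have : ∑ x ∈ q.2.1, cc (g3 n) q.1 x = ∑ x ∈ q.2.1, 1 := rfl
        rw [this, Finset.sum_const, q.2.2]
        rfl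
      omega
  · rintro ((_ | (⟨t, x⟩ | z)) | q) hv
    · simp [g3] at hv
    · refine ⟨Sum.inr (Sum.inl (x, x, x, x)), ?_, cs_Y _⟩
      rw [closed_iff]
      cases t <;> rfl
    · refine ⟨Sum.inr (Sum.inl z), ?_, cs_Y _⟩
      rw [closed_iff]
      rfl
    · simp [g3] at hv

theorem lower3 (hn : 2 ≤ n) : n ^ 4 ≤ upperKDomination (GG n) 3 := by
  refine le_trans ?_ (le_csSup (bddAbove_weights (GG n) 3) ⟨g3 n, g3_minimal hn, rfl⟩)
  rw [total, wK_g3]
  omega

theorem upper4' : upperKDomination (GG n) 4 ≤ 16 * n ^ 3 + n ^ 2 + 24 * n + 8 := by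
  refine csSup_le' ?_
  rintro w ⟨g, hg, rfl⟩
  exact upper4 hg

theorem adj_of_near {v w : VV n} (h : near v w) : (GG n).Reachable v w := by
  by_cases e : v = w
  · subst e; exact SimpleGraph.Reachable.refl _
  · exact SimpleGraph.Adj.reachable ⟨e, h⟩

theorem connected (n : ℕ) : (GG n).Connected := by
  have h : ∀ v : VV n, (GG n).Reachable v (Sum.inl (Sum.inl ())) := by
    have hK : ∀ k : KK n, (GG n).Reachable (Sum.inl k) (Sum.inl (Sum.inl ())) :=
      fun k => adj_of_near trivial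
    have hY : ∀ y : Idx n, (GG n).Reachable (Sum.inr (Sum.inl y)) (Sum.inl (Sum.inl ())) := by
      intro y
      refine (adj_of_near (w := Sum.inl (Sum.inr (Sum.inr y))) ?_).trans (hK _)
      rfl
    rintro (k | (y | ⟨⟨s, i⟩, q⟩))
    · exact hK k
    · exact hY y
    · refine (adj_of_near (w := Sum.inr (Sum.inl (i, i, i, i))) ?_).trans (hY _)
      cases s <;> rfl
  have : Nonempty (VV n) := ⟨Sum.inl (Sum.inl ())⟩
  exact ⟨fun v w => (h v).trans (h w).symm⟩

/-- For every `N` there is a finite connected graph with `N * Γ₄ < Γ₃`. -/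
theorem exists_graph (N : ℕ) : ∃ (V : Type) (_ : Fintype V) (G : SimpleGraph V),
    G.Connected ∧ N * upperKDomination G 4 < upperKDomination G 3 := by
  obtain ⟨n, hn⟩ : ∃ n, n = 49 * N + 2 := ⟨_, rfl⟩
  refine ⟨VV n, inferInstance, GG n, connected n, ?_⟩
  have h1 : 2 ≤ n := by omega
  have h2 := lower3 h1
  have h3 := @upper4' n
  refine lt_of_lt_of_le ?_ h2
  refine lt_of_le_of_lt (Nat.mul_le_mul_left N h3) ?_
  have e1 : 16 * n ^ 3 + n ^ 2 + 24 * n + 8 ≤ 49 * n ^ 3 := by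
    have a1 : n ^ 2 ≤ n ^ 3 := Nat.pow_le_pow_right (by omega) (by norm_num)
    have a2 : n ^ 1 ≤ n ^ 3 := Nat.pow_le_pow_right (by omega) (by norm_num)
    have a3 : n ^ 0 ≤ n ^ 3 := Nat.pow_le_pow_right (by omega) (by norm_num)
    simp only [pow_one, pow_zero] at a2 a3
    omega
  calc N * (16 * n ^ 3 + n ^ 2 + 24 * n + 8) ≤ N * (49 * n ^ 3) := Nat.mul_le_mul_left N e1
    _ = (49 * N) * n ^ 3 := by ring
    _ < n * n ^ 3 := Nat.mul_lt_mul_of_pos_right (by omega) (by positivity)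
    _ = n ^ 4 := by ring

end Q192.UKD
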