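import Pool.Agent.Q192.UKD.Graph

set_option autoImplicit false

namespace Q192.UKD

open Finset

variable {n : ℕ}

theorem ends_false (z : Idx n) : ends z false = z.1 := rfl
theorem ends_true (z : Idx n) : ends z true = z.2.1 := rfl
theorem beta_false (z : Idx n) : beta z false = z.2.2.1 := rfl
theorem beta_true (z : Idx n) : beta z true = z.2.2.2 := rfl

theorem wB_beta_le (g : VV n → ℕ) (y : Idx n) (p : Bool × Fin n) (h : beta y p.1 = p.2) :
    wB g p ≤ wB g (false, beta y false) + wB g (true, beta y true) := by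
  obtain ⟨s, i⟩ := p
  simp only at h
  subst h
  cases s <;> omega

theorem wS_add_le (g : VV n → ℕ) (s : Bool) {i i' : Fin n} (h : i ≠ i') :
    wS g (s, i) + wS g (s, i') ≤ wY g := by
  unfold wS wY
  rw [← Finset.sum_add_distrib]
  refine Finset.sum_le_sum fun y _ => ?_
  by_cases h1 : beta y s = i
  · have h2 : beta y s ≠ i' := fun e => h (h1.symm.trans e)
    simp [h1, h]
  · by_cases h2 : beta y s = i' <;> simp [h1, h2]
    intro h3; exact absurd h3.symm h

theorem wS_le (g : VV n → ℕ) (p : Bool × Fin n) : wS g p ≤ wY g := by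
  unfold wS wY
  refine Finset.sum_le_sum fun y _ => ?_
  split_ifs <;> simp

theorem sum_fst (f : Fin n → ℕ) : ∑ z : Idx n, f z.1 = (∑ x, f x) * n ^ 3 := by
  rw [Fintype.sum_prod_type]
  simp only [Finset.sum_const, Finset.card_univ, Fintype.card_prod, Fintype.card_fin, smul_eq_mul]
  rw [← Finset.mul_sum]
  ring

theorem sum_snd (f : Fin n → ℕ) : ∑ z : Idx n, f z.2.1 = (∑ x, f x) * n ^ 3 := by
  rw [Fintype.sum_prod_type]
  simp only [Fintype.sum_prod_type (γ := ℕ), Finset.sum_const, Finset.card_univ,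
    Fintype.card_fin, smul_eq_mul]
  rw [← Finset.mul_sum, ← Finset.mul_sum]
  ring

section
variable {g : VV n → ℕ} (hg : IsMinimalKDominating (GG n) 4 g)
include hg

theorem four_le_wK : 4 ≤ wK g := by
  have := hg.dominating (Sum.inl (Sum.inl ()))
  rwa [closedSum_r] at this

theorem tightQ (q : QQ n) (hq : 0 < g (Sum.inr q)) :
    ∃ q', nearQ q q' ∧ closedSum (GG n) g (Sum.inr q') = 4 := by
  classical
  obtain ⟨u, hu, h4⟩ := hg.minimal (Sum.inr q) hq
  rw [closed_iff] at hu
  rcases u with k | q'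
  · exfalso
    rw [closedSum_K] at h4
    have h1 : inc k q := hu
    have h2 : g (Sum.inr q) ≤ ∑ q : QQ n, if inc k q then g (Sum.inr q) else 0 := by
      have := Finset.single_le_sum (f := fun q : QQ n => if inc k q then g (Sum.inr q) else 0)
        (fun _ _ => Nat.zero_le _) (Finset.mem_univ q)
      simpa [h1] using this
    have h3 := four_le_wK hg
    omega
  · exact ⟨q', hu, h4⟩

theorem wB_le_four (p : Bool × Fin n) : wB g p ≤ 4 := by
  by_contra hcon
  have hne : wB g p ≠ 0 := by omega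
  obtain ⟨q, -, hq⟩ := Finset.exists_ne_zero_of_sum_ne_zero hne
  obtain ⟨q', hn, h4⟩ := tightQ hg (Sum.inr (p, q)) (Nat.pos_of_ne_zero hq)
  rcases q' with y | q'
  · rw [closedSum_Y] at h4
    have h1 : beta y p.1 = p.2 := hn
    have h2 := wB_beta_le g y p h1
    omega
  · obtain ⟨p', q'⟩ := q'
    have h1 : p = p' := hn
    subst h1
    rw [closedSum_U] at h4
    omega

theorem wY_le : wY g ≤ 8 * n + 4 := by
  classical
  by_cases hY : wY g ≤ 4
  · omega
  have key : ∀ y : Idx n, 0 < g (Sum.inr (Sum.inl y)) →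
      ∃ p : Bool × Fin n, beta y p.1 = p.2 ∧ wS g p ≤ 4 := by
    intro y hy
    obtain ⟨q', hn, h4⟩ := tightQ hg (Sum.inl y) hy
    rcases q' with y' | q'
    · rw [closedSum_Y] at h4
      omega
    · obtain ⟨p', q'⟩ := q'
      rw [closedSum_U] at h4
      exact ⟨p', hn, by omega⟩
  have h1 : wY g ≤ ∑ y : Idx n, ∑ p : Bool × Fin n,
      (if wS g p ≤ 4 then (if beta y p.1 = p.2 then g (Sum.inr (Sum.inl y)) else 0) else 0) := by
    unfold wY
    refine Finset.sum_le_sum fun y _ => ?_
    rcases Nat.eq_zero_or_pos (g (Sum.inr (Sum.inl y))) with h0 | h0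
    · rw [h0]; exact Nat.zero_le _
    · obtain ⟨p, hp1, hp2⟩ := key y h0
      have := Finset.single_le_sum (f := fun p : Bool × Fin n =>
        (if wS g p ≤ 4 then (if beta y p.1 = p.2 then g (Sum.inr (Sum.inl y)) else 0) else 0))
        (fun _ _ => Nat.zero_le _) (Finset.mem_univ p)
      simpa [hp1, hp2] using this
  rw [Finset.sum_comm] at h1
  have h2 : ∀ p : Bool × Fin n, (∑ y : Idx n,
      (if wS g p ≤ 4 then (if beta y p.1 = p.2 then g (Sum.inr (Sum.inl y)) else 0) else 0)) ≤ 4 := by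
    intro p
    by_cases h : wS g p ≤ 4
    · simp only [h, if_true]
      exact h
    · simp [h]
  have h3 := Finset.sum_le_sum fun p (_ : p ∈ (Finset.univ : Finset (Bool × Fin n))) => h2 p
  have h4 : ∑ _p : Bool × Fin n, 4 = 8 * n := by
    simp; ring
  omega

theorem sum_wB_le : ∑ p, wB g p ≤ 8 * n := by
  have h3 := Finset.sum_le_sum fun p (_ : p ∈ (Finset.univ : Finset (Bool × Fin n))) =>
    wB_le_four hg p
  have h4 : ∑ _p : Bool × Fin n, 4 = 8 * n := by
    simp; ring
  omega

theorem core_le : ∑ t, ∑ x, cc g t x ≤ 8 * n := by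
  have h3 : ∑ t : Bool, ∑ x : Fin n, cc g t x ≤ ∑ _t : Bool, ∑ _x : Fin n, 4 :=
    Finset.sum_le_sum fun t _ => Finset.sum_le_sum fun x _ => hg.le_k _
  have h4 : ∑ _t : Bool, ∑ _x : Fin n, 4 = 8 * n := by
    simp; ring
  omega

theorem tri_ge (p : Bool × Fin n) (t : Bool) (τ : Finset (Fin n)) (hτ : τ.card = 3) :
    4 ≤ (∑ x ∈ τ, cc g t x) + (wS g p + wB g p) := by
  have := hg.dominating (Sum.inr (Sum.inr (p, (t, ⟨τ, hτ⟩))))
  rwa [closedSum_U] at this

theorem root_zero (h5 : 5 ≤ wK g) : g (Sum.inl (Sum.inl ())) = 0 := by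
  classical
  by_contra h0
  obtain ⟨u, hu, h4⟩ := hg.minimal _ (Nat.pos_of_ne_zero h0)
  rw [closed_iff] at hu
  rcases u with k | q'
  · rw [closedSum_K] at h4; omega
  · exact hu

theorem leaf_tight (h5 : 5 ≤ wK g) (z : Idx n) (hz : 0 < ll g z) :
    (cc g false z.1 + cc g true z.2.1 + ll g z) +
      (wY g + (wB g (false, z.2.2.1) + wB g (true, z.2.2.2))) = 4 := by
  classical
  obtain ⟨u, hu, h4⟩ := hg.minimal _ hz
  rw [closed_iff] at hu
  rcases u with k | q'
  · rw [closedSum_K] at h4; omega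
  · rcases q' with y | q'
    · have h1 : z = y := hu
      subst h1
      rw [closedSum_Y] at h4
      exact h4
    · exact hu.elim

theorem structure_claim (h5 : 5 ≤ wK g) :
    ∃ (Z : Bool → Finset (Fin n)) (P : Fin n → Fin n → Prop), (∀ t, (Z t).card ≤ 2) ∧
      (∀ i j i' j', P i j → P i' j' → i = i' ∧ j = j') ∧
      ∀ z : Idx n, 0 < ll g z →
        z.1 ∈ Z false ∨ z.2.1 ∈ Z true ∨ (P z.2.2.1 z.2.2.2 ∧ ll g z ≤ 1) := by
  classical
  by_cases hx : ∃ p : Bool × Fin n, wS g p + wB g p = 0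
  · obtain ⟨p, hp⟩ := hx
    refine ⟨fun t => univ.filter fun x => cc g t x ≤ 1, fun _ _ => False, ?_, ?_, ?_⟩
    · intro t
      by_contra hcon
      have hcon' : ¬ (univ.filter fun x => cc g t x ≤ 1).card ≤ 2 := hcon
      obtain ⟨τ, hτ1, hτ2⟩ := Finset.exists_subset_card_eq (n := 3)
        (s := univ.filter fun x => cc g t x ≤ 1) (by omega)
      have h1 := tri_ge hg p t τ hτ2
      have h2 : ∑ x ∈ τ, cc g t x ≤ ∑ _x ∈ τ, 1 :=
        Finset.sum_le_sum fun x hx => (Finset.mem_filter.1 (hτ1 hx)).2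
      simp [hτ2] at h2
      omega
    · intro i j i' j' h; exact h.elim
    · intro z hz
      have h1 := leaf_tight hg h5 z hz
      by_cases h2 : cc g false z.1 ≤ 1
      · left; simp [h2]
      · right; left
        simp only [Finset.mem_filter, Finset.mem_univ, true_and]
        omega
  · push Not at hx
    by_cases hl : ∃ z : Idx n, 0 < ll g z
    · obtain ⟨z0, hz0⟩ := hl
      have h0 := leaf_tight hg h5 z0 hz0
      refine ⟨fun t => univ.filter fun x => cc g t x = 0,
        fun i j => wY g = 1 ∧ 1 ≤ wS g (false, i) ∧ 1 ≤ wS g (true, j), ?_, ?_, ?_⟩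
      · intro t
        by_contra hcon
        have hcon' : ¬ (univ.filter fun x => cc g t x = 0).card ≤ 2 := hcon
        obtain ⟨τ, hτ1, hτ2⟩ := Finset.exists_subset_card_eq (n := 3)
          (s := univ.filter fun x => cc g t x = 0) (by omega)
        have h1 := tri_ge hg (false, z0.2.2.1) t τ hτ2
        have h2 : ∑ x ∈ τ, cc g t x = 0 :=
          Finset.sum_eq_zero fun x hx => (Finset.mem_filter.1 (hτ1 hx)).2
        have h3 := wS_le g (false, z0.2.2.1)
        omega
      · rintro i j i' j' ⟨h1, h2, h3⟩ ⟨_, h5, h6⟩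
        constructor
        · by_contra hne
          have := wS_add_le g false hne
          omega
        · by_contra hne
          have := wS_add_le g true hne
          omega
      · intro z hz
        have h1 := leaf_tight hg h5 z hz
        by_cases h2 : cc g false z.1 = 0
        · left; simp [h2]
        by_cases h3 : cc g true z.2.1 = 0
        · right; left; simp [h3]
        right; right
        have h4 := wS_le g (false, z.2.2.1)
        have h5 := wS_le g (true, z.2.2.2)
        have h6 := hx (false, z.2.2.1)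
        have h7 := hx (true, z.2.2.2)
        refine ⟨⟨?_, ?_, ?_⟩, ?_⟩ <;> omega
    · push Not at hl
      refine ⟨fun _ => ∅, fun _ _ => False, by simp, ?_, ?_⟩
      · intro i j i' j' h; exact h.elim
      · intro z hz
        have := hl z
        omega

theorem leaves_le (h5 : 5 ≤ wK g) : ∑ z, ll g z ≤ 16 * n ^ 3 + n ^ 2 := by
  classical
  obtain ⟨Z, P, hZ, hP, h⟩ := structure_claim hg h5
  have h1 : ∑ z : Idx n, ll g z ≤ ∑ z : Idx n, ((if z.1 ∈ Z false then 4 else 0) +
      ((if z.2.1 ∈ Z true then 4 else 0) + (if P z.2.2.1 z.2.2.2 then 1 else 0))) := by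
    refine Finset.sum_le_sum fun z _ => ?_
    rcases Nat.eq_zero_or_pos (ll g z) with h0 | h0
    · rw [h0]; exact Nat.zero_le _
    · have h4 : ll g z ≤ 4 := hg.le_k _
      rcases h z h0 with h2 | h2 | ⟨h2, h3⟩
      · rw [if_pos h2]; omega
      · rw [if_pos h2]; omega
      · rw [if_pos h2]; omega
  rw [Finset.sum_add_distrib, Finset.sum_add_distrib] at h1
  have ha : ∑ z : Idx n, (if z.1 ∈ Z false then 4 else 0) = 4 * (Z false).card * n ^ 3 := by
    refine (sum_fst fun x => if x ∈ Z false then 4 else 0).trans ?_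
    rw [Finset.sum_ite_mem]
    simp [mul_comm]
  have hb : ∑ z : Idx n, (if z.2.1 ∈ Z true then 4 else 0) = 4 * (Z true).card * n ^ 3 := by
    refine (sum_snd fun x => if x ∈ Z true then 4 else 0).trans ?_
    rw [Finset.sum_ite_mem]
    simp [mul_comm]
  have hc : ∑ z : Idx n, (if P z.2.2.1 z.2.2.2 then 1 else 0) ≤ n ^ 2 := by
    have e : ∑ ij : Fin n × Fin n, (if P ij.1 ij.2 then 1 else 0) ≤ 1 := by
      rw [← Finset.card_filter]
      refine Finset.card_le_one.2 ?_
      intro a ha b hb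
      have := hP _ _ _ _ (Finset.mem_filter.1 ha).2 (Finset.mem_filter.1 hb).2
      exact Prod.ext this.1 this.2
    rw [Fintype.sum_prod_type]
    have e2 : ∀ x : Fin n, (∑ y : Fin n × Fin n × Fin n, if P y.2.1 y.2.2 then 1 else 0) ≤ n := by
      intro _
      rw [Fintype.sum_prod_type]
      calc ∑ _x : Fin n, ∑ y : Fin n × Fin n, (if P y.1 y.2 then 1 else 0)
          ≤ ∑ _x : Fin n, 1 := Finset.sum_le_sum fun _ _ => e
        _ = n := by simp
    calc ∑ x : Fin n, ∑ y : Fin n × Fin n × Fin n, (if P y.2.1 y.2.2 then 1 else 0)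
        ≤ ∑ _x : Fin n, n := Finset.sum_le_sum fun x _ => e2 x
      _ = n ^ 2 := by simp; ring
  have h2 := hZ false
  have h3 := hZ true
  have h6 : 4 * (Z false).card * n ^ 3 ≤ 8 * n ^ 3 := Nat.mul_le_mul_right _ (by omega)
  have h7 : 4 * (Z true).card * n ^ 3 ≤ 8 * n ^ 3 := Nat.mul_le_mul_right _ (by omega)
  rw [ha, hb] at h1
  omega

theorem upper4 : ∑ v, g v ≤ 16 * n ^ 3 + n ^ 2 + 24 * n + 8 := by
  rw [total]
  have hY := wY_le hg
  have hB := sum_wB_le hg
  by_cases h5 : 5 ≤ wK g
  · have h0 := root_zero hg h5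
    have h1 := leaves_le hg h5
    have h2 := core_le hg
    rw [wK_eq, h0]
    omega
  · have : wK g ≤ 4 := by omega
    have : 0 ≤ 16 * n ^ 3 + n ^ 2 := Nat.zero_le _
    omega

end

end Q192.UKD
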